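import Pool.Agent.H.MP_0447a2_lc.D

set_option autoImplicit false

namespace Pool.Agent.H.MP_535d13_an
open Finset Filter Topology Real Pool.Agent.H.MP_f44585_an Pool.Agent.H.MP_0447a2_lc

theorem sum_sym {E : Type} [AddCommMonoid E] (f : ℤ → E) (N : ℕ) :
    ∑ l ∈ Icc (-((N + 1 : ℕ) : ℤ)) ((N + 1 : ℕ) : ℤ), f l =
      ∑ l ∈ Icc (-(N : ℤ)) N, f l + (f (N + 1 : ℕ) + f (-(N + 1 : ℕ))) := by
  have : Icc (-((N + 1 : ℕ) : ℤ)) ((N + 1 : ℕ) : ℤ) =
      insert ((N + 1 : ℕ) : ℤ) (insert (-((N + 1 : ℕ) : ℤ)) (Icc (-(N : ℤ)) N)) := by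
    ext x
    simp only [mem_Icc, mem_insert]
    omega
  rw [this, sum_insert (by simp only [mem_Icc, mem_insert]; omega),
    sum_insert (by simp only [mem_Icc]; omega)]
  abel

noncomputable def PP (c : ℤ → ℂ) (x : ℝ) (N : ℕ) : ℂ := ∑ l ∈ Icc (-(N : ℤ)) N, c l * ee (l * x)

theorem cl {c : ℤ → ℂ} {p l : ℝ} (hl : 0 < l)
    (h : ∀ x, p ≤ x → x ≤ p + l → Tendsto (PP c x) atTop (𝓝 0)) :
    Tendsto (fun N : ℕ => ‖c N‖ + ‖c (-N)‖) atTop (𝓝 0) := by
  have h1 : Tendsto (fun N : ℕ => ∫ x in p..p + l,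
      ‖c N * ee (N * x) + c (-N) * ee (-(N * x))‖ / (1 + (‖c N‖ + ‖c (-N)‖))) atTop
      (𝓝 (∫ _ in p..p + l, (0 : ℝ))) := by
    refine intervalIntegral.tendsto_integral_filter_of_dominated_convergence (fun _ => 1)
      (Eventually.of_forall fun N => Continuous.aestronglyMeasurable (by fun_prop))
      (Eventually.of_forall fun N => Eventually.of_forall fun x _ => ?_) intervalIntegrable_const
      (Eventually.of_forall fun x hx => ?_)
    · rw [Real.norm_of_nonneg (by positivity), div_le_one (by positivity)]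
      refine (norm_add_le _ _).trans ?_
      rw [norm_mul, norm_mul, ee_norm, ee_norm]
      linarith
    · rw [Set.uIoc_of_le (by linarith)] at hx
      have h2 := h x hx.1.le hx.2
      have h3 := ((h2.comp (tendsto_add_atTop_nat 1)).sub h2).norm
      rw [sub_zero, norm_zero] at h3
      refine (tendsto_add_atTop_iff_nat 1).mp (squeeze_zero (fun _ => by positivity) (fun N => ?_) h3)
      refine (div_le_self (norm_nonneg _) (le_add_of_nonneg_right (by positivity))).trans (le_of_eq ?_)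
      simp only [PP, Function.comp, sum_sym, add_sub_cancel_left, Int.cast_neg, Int.cast_natCast,
        neg_mul]
  rw [intervalIntegral.integral_zero] at h1
  have h2 := h1.const_mul (8 / l)
  rw [mul_zero] at h2
  refine squeeze_zero' (Eventually.of_forall fun _ => by positivity) ?_ h2
  filter_upwards [(tendsto_order.mp h1).2 (l / 8) (by positivity),
    tendsto_natCast_atTop_atTop.eventually_ge_atTop (1 / l)] with N h3 h4
  have N0 : (0 : ℝ) < N := lt_of_lt_of_le (by positivity) h4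
  have key : ∀ (A B : ℂ) (y : ℝ), |y| = N → ‖A‖ * l ≤ ‖B‖ * (l / 2) +
      ∫ x in p..p + l, ‖A * ee (y * x) + B * ee (-(y * x))‖ := by
    intro A B y hy
    have e1 : ∀ x, ‖A * ee (y * x) + B * ee (-(y * x))‖ = ‖A + B * ee (-(2 * y) * x)‖ := fun x => by
      rw [← mul_one ‖A + _‖, ← ee_norm (y * x), ← norm_mul, add_mul, mul_assoc B, ← ee_add]
      congr 4
      ring
    simp only [e1]
    have e2 := intervalIntegral.norm_integral_le_integral_norm (μ := MeasureTheory.volume)
      (f := fun x => A + B * ee (-(2 * y) * x)) (by linarith : p ≤ p + l)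
    rw [intervalIntegral.integral_add (by simp) (Continuous.intervalIntegrable (by fun_prop) _ _),
      intervalIntegral.integral_const_mul, intervalIntegral.integral_const] at e2
    have e3 := int_ee (c := -(2 * y)) (by
      rw [neg_ne_zero]
      exact mul_ne_zero two_ne_zero (abs_pos.mp (hy ▸ N0))) p (p + l)
    rw [abs_neg, abs_mul, abs_two, hy] at e3
    have e4 : (2 * (N : ℝ))⁻¹ ≤ l / 2 := by
      rw [div_le_iff₀ hl] at h4
      rw [inv_eq_one_div, div_le_div_iff₀ (by positivity) two_pos]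
      linarith
    have e5 := norm_sub_le ((p + l - p) • A + B * ∫ x in p..p + l, ee (-(2 * y) * x))
      (B * ∫ x in p..p + l, ee (-(2 * y) * x))
    rw [add_sub_cancel_right, add_sub_cancel_left, norm_smul, Real.norm_of_nonneg hl.le,
      norm_mul] at e5
    rw [add_sub_cancel_left] at e2
    nlinarith [mul_le_mul_of_nonneg_left (e3.trans e4) (norm_nonneg B)]
  have k1 := key (c N) (c (-N)) N (Nat.abs_cast N)
  have k2 := key (c (-N)) (c N) (-N) (by rw [abs_neg, Nat.abs_cast])
  simp only [neg_mul, neg_neg, add_comm (c (-N) * _)] at k2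
  rw [intervalIntegral.integral_div] at h3 ⊢
  have r0 : 0 ≤ ‖c N‖ + ‖c (-N)‖ := by positivity
  have k3 : (‖c N‖ + ‖c (-N)‖) * (l / 2) ≤
    2 * ∫ x in p..p + l, ‖c N * ee (N * x) + c (-N) * ee (-(N * x))‖ := by linarith
  generalize (∫ x in p..p + l, ‖c N * ee (N * x) + c (-N) * ee (-(N * x))‖) = I at *
  generalize ‖c N‖ + ‖c (-N)‖ = r at *
  rw [div_lt_iff₀ (by positivity)] at h3
  rw [div_mul_div_comm, le_div_iff₀ (by positivity)]
  have : r ≤ 1 := by nlinarith
  nlinarith [mul_nonneg r0 hl.le]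

theorem sinc_var {a b : ℝ} (ha : 0 ≤ a) (hab : a ≤ b) :
    |sinc a ^ 2 - sinc b ^ 2| ≤ 16 / (1 + a) - 16 / (1 + b) := by
  have key : ∀ s : ℝ, |s| ≤ 1 → AntitoneOn (fun t => s * sinc t ^ 2 + 16 / (1 + t)) (Set.Ici 0) := by
    intro s hs
    have hd : ∀ t, 0 < t → HasDerivAt (fun t => s * sinc t ^ 2 + 16 / (1 + t))
        (s * (2 * (sin t / t) * ((cos t * t - sin t) / t ^ 2)) - 16 / (1 + t) ^ 2) t := by
      intro t ht
      have h1 : HasDerivAt sinc ((cos t * t - sin t * 1) / t ^ 2) t :=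
        ((hasDerivAt_sin t).div (hasDerivAt_id' t) ht.ne').congr_of_eventuallyEq
          ((eventually_ne_nhds ht.ne').mono fun x hx => sinc_of_ne_zero hx)
      refine (((h1.pow 2).const_mul s).add ((hasDerivAt_const t (16 : ℝ)).div
        ((hasDerivAt_id' t).const_add 1) (by linarith))).congr_deriv ?_
      rw [sinc_of_ne_zero ht.ne']
      simp
      ring
    refine antitoneOn_of_deriv_nonpos (convex_Ici 0) ?_ (fun t ht => ?_) fun t ht => ?_
    · refine ((continuous_sinc.pow 2).const_mul s).continuousOn.add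
        (continuousOn_const.div (by fun_prop) fun t ht => ?_)
      linarith [Set.mem_Ici.mp ht]
    · rw [interior_Ici] at ht
      exact (hd t ht).differentiableAt.differentiableWithinAt
    · rw [interior_Ici] at ht
      have ht : 0 < t := ht
      rw [(hd t ht).deriv, sub_nonpos]
      refine (le_abs_self _).trans ?_
      rw [abs_mul, abs_mul, abs_mul, abs_two, abs_div, abs_div, abs_of_pos ht,
        abs_of_pos (by positivity : 0 < t ^ 2)]
      refine (mul_le_of_le_one_left (by positivity) hs).trans ?_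
      rcases le_total t 1 with h | h
      · have e1 : |sin t| / t ≤ 1 := by
          rw [div_le_one ht]
          exact abs_sin_le_abs.trans (abs_of_pos ht).le
        have e2 : |cos t * t - sin t| / t ^ 2 ≤ 1 := by
          rw [div_le_one (by positivity), abs_le]
          have := sin_gt_sub_cube ht
          have := sin_le ht.le
          have := one_sub_sq_div_two_le_cos (x := t)
          have := cos_le_one t
          constructor <;> nlinarith [mul_pos ht ht, mul_pos ht (mul_pos ht ht)]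
        have e3 : (2 : ℝ) ≤ 16 / (1 + t) ^ 2 := by
          rw [le_div_iff₀ (by positivity)]
          nlinarith
        calc _ ≤ (2 : ℝ) * 1 * 1 := by gcongr
          _ ≤ _ := by linarith
      · have e2 : |cos t * t - sin t| ≤ 2 * t := by
          refine (abs_sub _ _).trans ?_
          rw [abs_mul, abs_of_pos ht]
          nlinarith [abs_cos_le_one t, abs_sin_le_one t]
        calc _ ≤ 2 * (1 / t) * (2 * t / t ^ 2) := by gcongr; exact abs_sin_le_one t
          _ = 16 / (2 * t) ^ 2 := by field_simp; norm_num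
          _ ≤ _ := by gcongr; linarith
  have h1 := key 1 (by simp) ha (ha.trans hab) hab
  have h2 := key (-1) (by simp) ha (ha.trans hab) hab
  rw [abs_le]
  constructor <;> simp only at h1 h2 <;> linarith

theorem riem {a : ℤ → ℂ} (h : Tendsto (fun N : ℕ => ∑ l ∈ Icc (-(N : ℤ)) N, a l) atTop (𝓝 0))
    {G : ℝ → ℂ} (hG : ∀ θ, 0 < θ → HasSum (fun l : ℤ => a l * (sinc (l * θ) ^ 2 : ℝ)) (G θ)) :
    Tendsto G (𝓝[>] 0) (𝓝 0) := by
  obtain ⟨M, hM⟩ := (Metric.isBounded_range_of_tendsto _ h).exists_norm_le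
  have M0 : 0 ≤ M := (norm_nonneg _).trans (hM _ ⟨0, rfl⟩)
  refine Metric.tendsto_nhds.mpr fun ε hε => ?_
  obtain ⟨N0, hN⟩ := Metric.tendsto_atTop.mp h (ε / 32) (by positivity)
  simp only [dist_zero_right] at hN ⊢
  have h1 : Tendsto (fun θ : ℝ => N0 * (M * (16 * θ))) (𝓝[>] 0) (𝓝 0) :=
    tendsto_nhdsWithin_of_tendsto_nhds (Continuous.tendsto' (by fun_prop) _ _ (by simp))
  filter_upwards [self_mem_nhdsWithin, (tendsto_order.mp h1).2 (ε / 2) (by positivity)] with θ t0 t1
  have t0 : 0 < θ := t0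
  have h2 : ∀ N : ℕ, ‖∑ l ∈ Icc (-(N : ℤ)) N, a l * (sinc (l * θ) ^ 2 : ℝ) -
      (∑ l ∈ Icc (-(N : ℤ)) N, a l) * (sinc (N * θ) ^ 2 : ℝ)‖ ≤
        (min N N0 : ℕ) * (M * (16 * θ)) + ε / 32 * (16 - 16 / (1 + N * θ)) := by
    intro N
    induction N with
    | zero => simp
    | succ N ih =>
      have e1 := sinc_var (a := N * θ) (b := (N + 1 : ℕ) * θ) (by positivity) (by gcongr; omega)
      have e2 : 16 / (1 + N * θ) - 16 / (1 + (N + 1 : ℕ) * θ) ≤ 16 * θ := by
        rw [div_sub_div _ _ (by positivity) (by positivity), div_le_iff₀ (by positivity)]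
        push_cast
        have : 0 ≤ N * θ := by positivity
        nlinarith [mul_nonneg this t0.le, mul_nonneg this (mul_nonneg this t0.le), mul_pos t0 t0,
          mul_nonneg this (mul_pos t0 t0).le]
      rw [sum_sym, sum_sym]
      simp only [Int.cast_neg, Int.cast_natCast, neg_mul, sinc_neg]
      have e3 := hM _ ⟨N, rfl⟩
      have e4 := hN N
      simp only at e3
      generalize ∑ l ∈ Icc (-(N : ℤ)) N, a l * (sinc (l * θ) ^ 2 : ℝ) = Q at *
      generalize ∑ l ∈ Icc (-(N : ℤ)) N, a l = P at *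
      rw [show Q + (a (N + 1 : ℕ) * (sinc ((N + 1 : ℕ) * θ) ^ 2 : ℝ) +
        a (-(N + 1 : ℕ)) * (sinc ((N + 1 : ℕ) * θ) ^ 2 : ℝ)) - (P + (a (N + 1 : ℕ) + a (-(N + 1 : ℕ)))) *
          (sinc ((N + 1 : ℕ) * θ) ^ 2 : ℝ) = (Q - P * (sinc (N * θ) ^ 2 : ℝ)) +
          P * (sinc (N * θ) ^ 2 - sinc ((N + 1 : ℕ) * θ) ^ 2 : ℝ) by push_cast; ring]
      refine (norm_add_le _ _).trans ?_
      rw [norm_mul, Complex.norm_real, Real.norm_eq_abs]
      have e5 := (abs_nonneg _).trans e1
      rcases lt_or_ge N N0 with c | c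
      · rw [min_eq_left c.le] at ih
        rw [min_eq_left (by omega), Nat.cast_succ N]
        rw [Nat.cast_succ N] at e1 e2 e5
        have := mul_le_mul e3 (e1.trans e2) (abs_nonneg _) M0
        nlinarith
      · rw [min_eq_right c] at ih
        rw [min_eq_right (by omega)]
        have := mul_le_mul (e4 c).le e1 (abs_nonneg _) (by positivity)
        linarith
  have h3 : Tendsto (fun N : ℕ => (∑ l ∈ Icc (-(N : ℤ)) N, a l) * (sinc (N * θ) ^ 2 : ℝ)) atTop
      (𝓝 0) := by
    refine squeeze_zero_norm (fun N => ?_) (tendsto_zero_iff_norm_tendsto_zero.mp h)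
    rw [norm_mul, Complex.norm_real, norm_pow, Real.norm_eq_abs]
    exact mul_le_of_le_one_right (norm_nonneg _) (pow_le_one₀ (abs_nonneg _) (abs_sinc_le_one _))
  have h4 := (((hG θ t0).comp tendsto_Icc_neg).sub h3).norm
  rw [sub_zero] at h4
  refine lt_of_le_of_lt (b := N0 * (M * (16 * θ)) + ε / 2)
    (le_of_tendsto' h4 fun N => (h2 N).trans ?_) (by linarith)
  have : (0 : ℝ) ≤ 16 / (1 + N * θ) := by positivity
  refine add_le_add ?_ (by nlinarith)
  gcongr
  exact min_le_right _ _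

theorem schwarz {F : ℝ → ℝ} (hF : Continuous F) {x r : ℝ} (hr : 0 < r)
    (h : ∀ y, x - r < y → y < x + r →
      Tendsto (fun t => (F (y + t) + F (y - t) - 2 * F y) / t ^ 2) (𝓝[>] 0) (𝓝 0)) :
    0 ≤ F (x + r) + F (x - r) - 2 * F x := by
  by_contra hc
  obtain ⟨ε, hε, e0⟩ : ∃ ε, 0 < ε ∧ ε * r ^ 2 * 4 = -(F (x + r) + F (x - r) - 2 * F x) :=
    ⟨-(F (x + r) + F (x - r) - 2 * F x) / (r ^ 2 * 4), div_pos (by linarith) (by positivity), by
      field_simp⟩
  obtain ⟨s, hs⟩ : ∃ s, s * r * 2 = F (x + r) - F (x - r) :=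
    ⟨(F (x + r) - F (x - r)) / (r * 2), by field_simp⟩
  obtain ⟨y, hy, hm⟩ := (isCompact_Icc (a := x - r) (b := x + r)).exists_isMaxOn
    ⟨x, by linarith, by linarith⟩ (f := fun y => F y - s * (y - x) + ε * (y - x) ^ 2)
    (Continuous.continuousOn (by fun_prop))
  have h0 := hm (a := x) ⟨by linarith, by linarith⟩
  simp only [Set.mem_setOf_eq, sub_self, mul_zero, sub_zero] at h0
  have p0 : 0 < ε * r ^ 2 := by positivity
  have y1 : x - r < y := lt_of_le_of_ne hy.1 fun e => by
    rw [← e] at h0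
    nlinarith
  have y2 : y < x + r := lt_of_le_of_ne hy.2 fun e => by
    rw [e] at h0
    nlinarith
  obtain ⟨t, t1, t2, t3⟩ := (((tendsto_order.mp (h y y1 y2)).1 (-(2 * ε)) (by linarith)).and
    (Ioo_mem_nhdsGT (lt_min (sub_pos.mpr y1) (sub_pos.mpr y2)))).exists
  obtain ⟨t4, t5⟩ := lt_min_iff.mp t3
  have a1 := hm (a := y + t) ⟨by linarith, by linarith⟩
  have a2 := hm (a := y - t) ⟨by linarith, by linarith⟩
  simp only [Set.mem_setOf_eq] at a1 a2
  rw [lt_div_iff₀ (by positivity)] at t1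
  nlinarith

theorem hs_congr {f g : ℤ → ℂ} {a : ℂ} (h : HasSum f a) (e : ∀ l, f l = g l) : HasSum g a :=
  funext e ▸ h

theorem flat {c : ℤ → ℂ} {M : ℝ} (hM : ∀ l, ‖c l‖ ≤ M) {x r : ℝ} (hr : 0 < r)
    (h : ∀ y, x - r < y → y < x + r → Tendsto (PP c y) atTop (𝓝 0)) :
    HasSum (fun l : ℤ => c l * ee (l * x) * (sinc (l * (π * r)) ^ 2 : ℝ)) 0 := by
  have hs : Summable fun l : ℤ => M / (4 * π ^ 2) * (1 / (l : ℝ) ^ 2) :=
    (summable_one_div_int_pow.mpr one_lt_two).mul_left _
  have hb : ∀ (l : ℤ) (y : ℝ), ‖c l * ee (l * y) / (4 * π ^ 2 * l ^ 2 : ℝ)‖ ≤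
      M / (4 * π ^ 2) * (1 / (l : ℝ) ^ 2) := fun l y => by
    rw [norm_div, norm_mul, ee_norm, mul_one, Complex.norm_real, Real.norm_of_nonneg (by positivity),
      mul_one_div, div_div]
    gcongr
    exact hM l
  obtain ⟨F, hF⟩ : ∃ F : ℝ → ℂ, F = fun y => c 0 * (y ^ 2 / 2 : ℝ) -
    ∑' l : ℤ, c l * ee (l * y) / (4 * π ^ 2 * l ^ 2 : ℝ) := ⟨_, rfl⟩
  have F1 : Continuous F := by
    rw [hF]
    exact Continuous.sub (by fun_prop) (continuous_tsum (fun l => by fun_prop) hs hb)
  have F2 : ∀ y t, 0 < t → HasSum (fun l : ℤ => c l * ee (l * y) * (sinc (l * (π * t)) ^ 2 : ℝ))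
      ((F (y + t) + F (y - t) - 2 * F y) / (t ^ 2 : ℝ)) := by
    intro y t ht
    have s1 := fun y => (Summable.of_norm_bounded hs fun l => hb l y).hasSum
    have s2 := ((hasSum_ite_eq (0 : ℤ) (c 0)).sub ((((s1 (y + t)).add (s1 (y - t))).sub
      ((s1 y).mul_left 2)).div_const (t ^ 2 : ℝ)))
    have t0 : (t : ℂ) ≠ 0 := by exact_mod_cast ht.ne'
    have e : (F (y + t) + F (y - t) - 2 * F y) / (t ^ 2 : ℝ) = c 0 -
        (∑' l : ℤ, c l * ee (l * (y + t)) / (4 * π ^ 2 * l ^ 2 : ℝ) +
        ∑' l : ℤ, c l * ee (l * (y - t)) / (4 * π ^ 2 * l ^ 2 : ℝ) -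
        2 * ∑' l : ℤ, c l * ee (l * y) / (4 * π ^ 2 * l ^ 2 : ℝ)) / (t ^ 2 : ℝ) := by
      simp only [hF]
      generalize ∑' l : ℤ, c l * ee (l * (y + t)) / (4 * π ^ 2 * l ^ 2 : ℝ) = a1
      generalize ∑' l : ℤ, c l * ee (l * (y - t)) / (4 * π ^ 2 * l ^ 2 : ℝ) = a2
      generalize ∑' l : ℤ, c l * ee (l * y) / (4 * π ^ 2 * l ^ 2 : ℝ) = a3
      push_cast
      field_simp
      ring
    rw [e]
    refine hs_congr s2 fun l => ?_
    rcases eq_or_ne l 0 with rfl | hl
    · simp [ee_zero]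
    · have l0 : (l : ℝ) ≠ 0 := by exact_mod_cast hl
      have l1 : (l : ℂ) ≠ 0 := by exact_mod_cast hl
      have p0 : (π : ℂ) ≠ 0 := by exact_mod_cast pi_pos.ne'
      have e1 : ee (l * t) + ee (-(l * t)) = 2 - 4 * (sin (l * (π * t)) : ℝ) ^ 2 := by
        have : ((cos (2 * π * (l * t)) : ℝ) : ℂ) = (ee (l * t) + ee (-(l * t))) / 2 := by
          rw [Complex.ofReal_cos, Complex.cos, ee, ee]
          congr 3 <;> push_cast <;> ring
        rw [show 2 * π * (l * t) = 2 * (l * (π * t)) by ring, cos_two_mul, cos_sq'] at this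
        push_cast at this ⊢
        linear_combination -2 * this
      rw [if_neg hl, sinc_of_ne_zero (by positivity), mul_add (l : ℝ), mul_sub (l : ℝ),
        sub_eq_add_neg (l * y), ee_add, ee_add]
      generalize sin (l * (π * t)) = s at e1
      push_cast
      field_simp
      linear_combination -(c l * ee (l * y)) * e1
  have F3 : ∀ y, x - r < y → y < x + r →
      Tendsto (fun t => (F (y + t) + F (y - t) - 2 * F y) / (t ^ 2 : ℝ)) (𝓝[>] 0) (𝓝 0) := by
    intro y y1 y2
    have h1 := riem (a := fun l => c l * ee (l * y)) (h y y1 y2)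
      (G := fun θ => (F (y + θ / π) + F (y - θ / π) - 2 * F y) / ((θ / π) ^ 2 : ℝ)) fun θ t0 => by
        have := F2 y (θ / π) (by positivity)
        rwa [mul_div_cancel₀ _ pi_pos.ne'] at this
    have h2 : Tendsto (fun t => π * t) (𝓝[>] 0) (𝓝[>] 0) :=
      tendsto_nhdsWithin_iff.mpr ⟨tendsto_nhdsWithin_of_tendsto_nhds
        (Continuous.tendsto' (by fun_prop) _ _ (by simp)),
        eventually_mem_nhdsWithin.mono fun t ht => mul_pos pi_pos ht⟩
    refine (h1.comp h2).congr fun t => ?_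
    simp only [Function.comp, mul_div_cancel_left₀ _ pi_pos.ne']
  have F4 : ∀ ω : ℂ, 0 ≤ (ω * (F (x + r) + F (x - r) - 2 * F x)).re := fun ω => by
    have := schwarz (F := fun y => (ω * F y).re) (by fun_prop) hr (x := x) fun y y1 y2 => by
      have h1 := (Complex.continuous_re.tendsto _).comp ((F3 y y1 y2).const_mul ω)
      rw [mul_zero, Complex.zero_re] at h1
      refine h1.congr fun t => ?_
      simp only [Function.comp]
      rw [← mul_div_assoc, Complex.div_ofReal_re, mul_sub, mul_add, mul_left_comm]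
      simp
    rw [mul_sub, mul_add, mul_left_comm]
    simpa using this
  have F5 := F4 (-starRingEnd ℂ (F (x + r) + F (x - r) - 2 * F x))
  have F6 := F2 x r hr
  generalize F (x + r) + F (x - r) - 2 * F x = z at F5 F6
  rw [neg_mul, ← Complex.normSq_eq_conj_mul_self, Complex.neg_re, Complex.ofReal_re] at F5
  rwa [Complex.normSq_eq_zero.mp (le_antisymm (by linarith) (Complex.normSq_nonneg z)),
    zero_div] at F6

theorem roots {n : ℕ} (hn : 0 < n) (d : ℤ) :
    ∑ i ∈ range n, ee (d * (i / n)) = if (n : ℤ) ∣ d then (n : ℂ) else 0 := by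
  have n0 : (n : ℝ) ≠ 0 := by exact_mod_cast hn.ne'
  have e1 : ∀ i : ℕ, ee (d * (i / n)) = ee (d / n) ^ i := fun i => by
    rw [← ee_nat]; congr 1; ring
  simp only [e1]
  split_ifs with h
  · obtain ⟨q, rfl⟩ := h
    have : (((n * q : ℤ) : ℝ) / n) = q := by push_cast; field_simp
    rw [this, ee_int]
    simp
  · rw [geom_sum_eq, ← ee_nat, mul_div_cancel₀ _ n0, ee_int, sub_self, zero_div]
    intro e
    obtain ⟨q, hq⟩ := ee_one e
    rw [div_eq_iff n0] at hq
    exact h ⟨q, by rw [mul_comm]; exact_mod_cast hq⟩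

theorem uniq {n : ℕ → ℕ} (n0 : ∀ k, 0 < n k) (hn : Tendsto n atTop atTop) {c : ℤ → ℂ}
    (h : ∀ k (x : ℝ) (z : ℤ), 5 / 8 < n k * x - z → n k * x - z < 7 / 8 → Tendsto (PP c x) atTop (𝓝 0))
    (m : ℤ) : c m = 0 := by
  have n1 : ∀ k, (0 : ℝ) < n k := fun k => by exact_mod_cast n0 k
  have h1 := cl (c := c) (p := 11 / 16 / n 0) (l := 1 / 8 / n 0) (by have := n1 0; positivity)
    fun x x1 x2 => by
      rw [← add_div, le_div_iff₀ (n1 0)] at x2
      rw [div_le_iff₀ (n1 0)] at x1
      exact h 0 x 0 (by push_cast; linarith) (by push_cast; linarith)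
  have h2 : ∀ l, ‖c l‖ ≤ ‖c l.natAbs‖ + ‖c (-l.natAbs)‖ := fun l => by
    rcases Int.natAbs_eq l with e | e
    · rw [← e]; exact le_add_of_nonneg_right (norm_nonneg _)
    · rw [← e]; exact le_add_of_nonneg_left (norm_nonneg _)
  obtain ⟨M, hM⟩ := h1.bddAbove_range
  have hM' : ∀ l, ‖c l‖ ≤ M := fun l => (h2 l).trans (hM ⟨_, rfl⟩)
  have h3 : ∀ k, HasSum (fun j : ℤ => c (m + n k * j) * ee (j * (3 / 4)) *
      (sinc ((m + n k * j : ℤ) * (π * (1 / 8 / n k))) ^ 2 : ℝ)) 0 := by
    intro k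
    have a0 := n1 k
    have a1 := hasSum_sum (s := range (n k)) fun i _ => (flat hM' (x := (3 / 4 + i) / n k)
      (r := 1 / 8 / n k) (by positivity) fun y y1 y2 => by
        rw [← sub_div, div_lt_iff₀ a0] at y1
        rw [← add_div, lt_div_iff₀ a0] at y2
        exact h k y i (by push_cast; linarith) (by push_cast; linarith)).mul_left
          (ee (-m * ((3 / 4 + i) / n k)) / n k)
    have a2 : ∀ l : ℤ, ∑ i ∈ range (n k), ee (-m * ((3 / 4 + i) / n k)) / n k *
        (c l * ee (l * ((3 / 4 + i) / n k)) * (sinc (l * (π * (1 / 8 / n k))) ^ 2 : ℝ)) =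
        c l * ee ((l - m : ℤ) / n k * (3 / 4)) * (sinc (l * (π * (1 / 8 / n k))) ^ 2 : ℝ) *
          ((if (n k : ℤ) ∣ l - m then (n k : ℂ) else 0) / n k) := fun l => by
      rw [← roots (n0 k), sum_div, mul_sum]
      refine sum_congr rfl fun i _ => ?_
      have : ee (-m * ((3 / 4 + i) / n k)) * ee (l * ((3 / 4 + i) / n k)) =
          ee ((l - m : ℤ) / n k * (3 / 4)) * ee ((l - m : ℤ) * (i / n k)) := by
        rw [← ee_add, ← ee_add]
        congr 1
        push_cast
        ring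
      linear_combination (c l * (sinc (l * (π * (1 / 8 / n k))) ^ 2 : ℝ) / n k) * this
    simp only [a2, mul_zero, sum_const_zero] at a1
    have a3 : Function.Injective fun j : ℤ => m + n k * j := fun i j e =>
      mul_left_cancel₀ (by exact_mod_cast (n0 k).ne') (add_left_cancel e)
    refine hs_congr ((a3.hasSum_iff fun l hl => ?_).mpr a1) fun j => ?_
    · rw [if_neg, zero_div, mul_zero]
      rintro ⟨q, hq⟩
      exact hl ⟨q, by simp only; omega⟩
    · have : (n k : ℂ) ≠ 0 := by exact_mod_cast (n0 k).ne'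
      simp only [Function.comp, add_sub_cancel_left, dvd_mul_right, if_true, div_self this, mul_one]
      rw [Int.cast_mul, Int.cast_natCast, mul_div_cancel_left₀ _ a0.ne']
  have M0 : 0 ≤ M := (norm_nonneg _).trans (hM' 0)
  have h4 := tendsto_tsum_of_dominated_convergence (𝓕 := atTop)
    (f := fun k (j : ℤ) => c (m + n k * j) * ee (j * (3 / 4)) *
      (sinc ((m + n k * j : ℤ) * (π * (1 / 8 / n k))) ^ 2 : ℝ))
    (g := fun j => if j = 0 then c m else 0)
    (bound := fun j => (if j = 0 then M else 0) + M * 36 * (1 / (j : ℝ) ^ 2))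
    ((hasSum_ite_eq (0 : ℤ) M).summable.add ((summable_one_div_int_pow.mpr one_lt_two).mul_left _))
    (fun j => by
      split_ifs with hj
      · subst hj
        simp only [mul_zero, add_zero, Int.cast_zero, zero_mul, ee_zero, mul_one]
        have : Tendsto (fun k => 1 / 8 / (n k : ℝ)) atTop (𝓝 0) :=
          tendsto_const_nhds.div_atTop (tendsto_natCast_atTop_atTop.comp hn)
        exact (Continuous.tendsto' (f := fun t : ℝ => c m * (sinc (m * (π * t)) ^ 2 : ℝ))
          (by have := continuous_sinc; fun_prop) 0 _ (by simp)).comp this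
      · refine squeeze_zero_norm (fun k => le_trans ?_ (h2 (m + n k * j))) (h1.comp ?_)
        · rw [norm_mul, norm_mul, ee_norm, mul_one, Complex.norm_real, norm_pow, Real.norm_eq_abs]
          exact mul_le_of_le_one_right (norm_nonneg _) (pow_le_one₀ (abs_nonneg _) (abs_sinc_le_one _))
        · refine tendsto_atTop.mpr fun b => (hn.eventually_ge_atTop (b + m.natAbs)).mono fun k hk => ?_
          have e1 : n k ≤ (n k * j : ℤ).natAbs := by
            rw [Int.natAbs_mul, Int.natAbs_natCast]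
            exact Nat.le_mul_of_pos_right _ (Int.natAbs_pos.mpr hj)
          omega)
    ((hn.eventually_ge_atTop (2 * m.natAbs)).mono fun k hk j => by
      rw [norm_mul, norm_mul, ee_norm, mul_one, Complex.norm_real, norm_pow, Real.norm_eq_abs]
      split_ifs with hj
      · exact le_add_of_le_of_nonneg ((mul_le_of_le_one_right (norm_nonneg _)
          (pow_le_one₀ (abs_nonneg _) (abs_sinc_le_one _))).trans (hM' _)) (by positivity)
      · rw [zero_add, mul_assoc]
        refine mul_le_mul (hM' _) ?_ (by positivity) M0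
        have a0 := n1 k
        have j1 : (1 : ℝ) ≤ |(j : ℝ)| := by exact_mod_cast Int.one_le_abs hj
        have e1 : (2 * |(m : ℝ)|) ≤ n k := by
          rw [← Int.cast_abs, ← Nat.cast_natAbs]
          exact_mod_cast hk
        have e2 : n k * |(j : ℝ)| / 2 ≤ |((m + n k * j : ℤ) : ℝ)| := by
          have := abs_sub (((m + n k * j : ℤ) : ℝ)) m
          push_cast at this ⊢
          rw [add_sub_cancel_left, abs_mul, Nat.abs_cast] at this
          nlinarith
        have e3 : |(j : ℝ)| / 6 ≤ |((m + n k * j : ℤ) : ℝ) * (π * (1 / 8 / n k))| := by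
          rw [abs_mul, abs_of_pos (by positivity : 0 < π * (1 / 8 / n k))]
          calc _ ≤ n k * |(j : ℝ)| / 2 * (3 * (1 / 8 / n k)) := by
                field_simp
                nlinarith
            _ ≤ _ := by gcongr; exact pi_gt_three.le
        generalize ((m + n k * j : ℤ) : ℝ) * (π * (1 / 8 / n k)) = y at e3
        have y0 : 0 < |y| := lt_of_lt_of_le (by positivity) e3
        rw [sinc_of_ne_zero (abs_pos.mp y0), abs_div]
        calc _ ≤ (1 / (|(j : ℝ)| / 6)) ^ 2 := by gcongr; exact abs_sin_le_one y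
          _ = _ := by rw [← sq_abs (j : ℝ)]; field_simp; norm_num)
  simp only [(h3 _).tsum_eq, tsum_ite_eq] at h4
  exact (tendsto_nhds_unique tendsto_const_nhds h4).symm

end Pool.Agent.H.MP_535d13_an
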