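import Pool.Agent.H.MP_535d13_an.A

set_option autoImplicit false

namespace Pool.Agent.H.MP_535d13_an
open Finset Filter Topology Real MeasureTheory Pool.Agent.H.MP_f44585_an Pool.Agent.H.MP_0447a2_lc
open scoped ENNReal

noncomputable def ep (m : ℕ → ℕ) (x : ℝ) (i : ℕ) : ℝ :=
  if 1 / 2 ≤ Int.fract (2 ^ m i * x) then 1 / 2 / 2 ^ m i else 0

noncomputable def gg (m : ℕ → ℕ) (x : ℝ) : ℝ := x - ∑' i, ep m x i

variable {m : ℕ → ℕ}

theorem ep0 (x : ℝ) (i : ℕ) : 0 ≤ ep m x i := by unfold ep; split_ifs <;> positivity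

theorem split (hm : StrictMono m) (x : ℝ) (k : ℕ) : ∃ η, 0 ≤ η ∧ η ≤ 1 / 2 ^ m k ∧
    gg m x = x - ∑ i ∈ range k, ep m x i - η := by
  have h1 : ∀ k i, ep m x (i + k) ≤ 1 / 2 / 2 ^ m k * (1 / 2) ^ i := fun k i => by
    have : m k + i ≤ m (i + k) := by
      have := hm.add_le_nat i k
      omega
    calc _ ≤ 1 / 2 / (2 : ℝ) ^ m (i + k) := by unfold ep; split_ifs; exacts [le_rfl, by positivity]
      _ ≤ 1 / 2 / (2 : ℝ) ^ (m k + i) := by gcongr; norm_num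
      _ = _ := by rw [pow_add, one_div_pow]; field_simp
  have h2 : ∀ k, Summable fun i => ep m x (i + k) := fun k =>
    Summable.of_nonneg_of_le (fun _ => ep0 _ _) (h1 k) (summable_geometric_two.mul_left _)
  refine ⟨∑' i, ep m x (i + k), tsum_nonneg fun _ => ep0 _ _, ?_, ?_⟩
  · refine ((h2 k).tsum_le_tsum (h1 k) (summable_geometric_two.mul_left _)).trans (le_of_eq ?_)
    rw [tsum_mul_left, tsum_geometric_two]
    ring
  · rw [gg, ← Summable.sum_add_tsum_nat_add (f := ep m x) k (h2 0)]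
    ring

theorem cover (hm : StrictMono m) (A : Set ℝ) (k : ℕ) : volume (gg m ⁻¹' A) ≤
    2 ^ k * volume {y | ∃ η, 0 ≤ η ∧ η ≤ 1 / 2 ^ m k ∧ y - η ∈ A} := by
  have : gg m ⁻¹' A ⊆ ⋃ D ∈ (range k).powerset, (fun x => x + -∑ i ∈ D, 1 / 2 / (2 : ℝ) ^ m i) ⁻¹'
      {y | ∃ η, 0 ≤ η ∧ η ≤ 1 / 2 ^ m k ∧ y - η ∈ A} := by
    intro x hx
    obtain ⟨η, h1, h2, h3⟩ := split hm x k
    refine Set.mem_biUnion (x := (range k).filter fun i => 1 / 2 ≤ Int.fract (2 ^ m i * x))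
      (mem_powerset.mpr (filter_subset _ _)) ⟨η, h1, h2, ?_⟩
    simp only [sum_filter, ← sub_eq_add_neg]
    exact h3 ▸ hx
  refine (measure_mono this).trans ((measure_biUnion_finset_le _ _).trans (le_of_eq ?_))
  simp only [measure_preimage_add_right]
  simp

theorem avoid (hm : ∀ k, m k + 3 ≤ m (k + 1)) (x : ℝ) (k : ℕ) (z : ℤ) :
    2 ^ m k * gg m x - z ≤ 5 / 8 ∨ 7 / 8 ≤ 2 ^ m k * gg m x - z := by
  have hm' : StrictMono m := strictMono_nat_of_lt_succ fun k => by have := hm k; omega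
  obtain ⟨η, h1, h2, h3⟩ := split hm' x (k + 1)
  have h4 : ∃ q : ℤ, 2 ^ m k * ∑ i ∈ range k, ep m x i = q := by
    refine ⟨∑ i ∈ range k, if 1 / 2 ≤ Int.fract (2 ^ m i * x) then 2 ^ (m k - m i - 1) else 0, ?_⟩
    rw [mul_sum]
    push_cast
    refine sum_congr rfl fun i hi => ?_
    have := hm' (mem_range.mp hi)
    unfold ep
    split_ifs
    · rw [show m k = m k - m i - 1 + 1 + m i by omega, pow_add, pow_succ]
      simp only [Nat.add_sub_cancel]
      field_simp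
    · simp
  obtain ⟨q, h4⟩ := h4
  have h5 : 2 ^ m k * η ≤ 1 / 8 := by
    calc _ ≤ (2 : ℝ) ^ m k * (1 / 2 ^ (m k + 3)) := by
          gcongr
          exact h2.trans (by gcongr; exacts [one_le_two, hm k])
      _ = _ := by rw [pow_add]; field_simp; norm_num
  have h6 : 0 ≤ 2 ^ m k * η := by positivity
  have h7 : 0 ≤ Int.fract (2 ^ m k * x) - 2 ^ m k * ep m x k ∧
      Int.fract (2 ^ m k * x) - 2 ^ m k * ep m x k ≤ 1 / 2 := by
    have := Int.fract_lt_one (2 ^ m k * x)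
    have := Int.fract_nonneg (2 ^ m k * x)
    unfold ep
    split_ifs
    · rw [mul_div_cancel₀ _ (by positivity)]
      constructor <;> linarith
    · constructor <;> linarith
  rw [h3, sum_range_succ, mul_sub, mul_sub, mul_add, h4]
  rw [Int.fract] at h7
  rcases le_or_gt (⌊2 ^ m k * x⌋ - q - z) 0 with h | h
  · have : ((⌊2 ^ m k * x⌋ - q - z : ℤ) : ℝ) ≤ 0 := by exact_mod_cast h
    push_cast at this
    exact Or.inl (by linarith)
  · have : (1 : ℝ) ≤ ((⌊2 ^ m k * x⌋ - q - z : ℤ) : ℝ) := by exact_mod_cast h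
    push_cast at this
    exact Or.inr (by linarith)

theorem SS_eq {α : ℝ} (h1 : 1 < |α|) (h N : ℕ) (t : ℝ) :
    SS α h 0 (N * log |α|) t = ∑ n ∈ range N, ee (h * (t * α ^ n)) := by
  have := log_pos h1
  rw [SS, io, io, zero_div, Nat.ceil_zero, mul_div_cancel_right₀ _ this.ne', Nat.ceil_natCast,
    range_eq_Ico]

theorem cheb {α : ℝ} (h1 : 1 < |α|) {h : ℕ} (hh : 1 ≤ h) (N : ℕ) {c : ℝ} (hc : 0 < c) :
    volume {y | y ∈ Set.Ioc (0 : ℝ) 1 ∧ c ≤ ‖SS α h 0 (N * log |α|) y‖} ≤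
      ENNReal.ofReal (N * (1 + KK α ^ 2) / c ^ 2) := by
  have a1 := l2 h1 hh 0 (N * log |α|) 0
  have hc' := SS_cont α h 0 (N * log |α|)
  have := log_pos h1
  rw [io, io, zero_div, Nat.ceil_zero, mul_div_cancel_right₀ _ this.ne', Nat.ceil_natCast,
    neg_zero, exp_zero, zero_add, one_mul, Nat.card_Ico, Nat.sub_zero,
    intervalIntegral.integral_of_le zero_le_one] at a1
  have a2 := mul_meas_ge_le_integral_of_nonneg (μ := volume.restrict (Set.Ioc (0 : ℝ) 1))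
    (f := fun t => ‖SS α h 0 (N * log |α|) t‖ ^ 2) (Eventually.of_forall fun _ => by positivity)
    (Continuous.integrableOn_Ioc (by fun_prop)) (c ^ 2)
  rw [measureReal_def, Measure.restrict_apply' measurableSet_Ioc] at a2
  refine le_trans (measure_mono (t := {x | c ^ 2 ≤ ‖SS α h 0 (N * log |α|) x‖ ^ 2} ∩ Set.Ioc 0 1)
    fun y hy => ⟨Set.mem_setOf.mpr (pow_le_pow_left₀ hc.le hy.2 2), hy.1⟩) ?_
  rw [ENNReal.le_ofReal_iff_toReal_le ((measure_mono Set.inter_subset_right).trans_lt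
    (by simp)).ne (by positivity), le_div_iff₀ (by positivity)]
  linarith

theorem sq_lim {x : ℕ → ℂ} (hx : ∀ n, ‖x n‖ ≤ 1) {C : ℝ} (h : ∀ q : ℕ, ∀ᶠ j : ℕ in atTop,
    ‖∑ n ∈ range (j ^ 2), x n‖ ≤ 1 / (q + 1) * j ^ 2 + C) :
    Tendsto (fun N : ℕ => (∑ n ∈ range N, x n) / N) atTop (𝓝 0) := by
  refine Metric.tendsto_nhds.mpr fun ε hε => ?_
  obtain ⟨q, hq⟩ := exists_nat_one_div_lt (half_pos hε)
  have ht : Tendsto Nat.sqrt atTop atTop := tendsto_atTop.mpr fun b =>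
    (eventually_ge_atTop (b ^ 2)).mono fun N hN => Nat.le_sqrt'.mpr hN
  filter_upwards [ht.eventually (h q), ht.eventually_ge_atTop 1,
    (tendsto_natCast_atTop_atTop.comp ht).eventually_ge_atTop ((|C| + 2) / (ε / 2))] with N h1 h2 h3
  have a1 := Nat.sqrt_le' N
  have a2 := Nat.lt_succ_sqrt' N
  simp only [Function.comp] at h3
  generalize N.sqrt = j at *
  have a3 : (j : ℝ) ^ 2 ≤ N := by exact_mod_cast a1
  have a4 : (N : ℝ) + 1 ≤ (j + 1) ^ 2 := by exact_mod_cast a2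
  have a5 : (1 : ℝ) ≤ j := by exact_mod_cast h2
  have a6 : ‖∑ n ∈ Ico (j ^ 2) N, x n‖ ≤ 2 * j := by
    refine (norm_sum_le_of_le _ fun n _ => hx n).trans ?_
    rw [sum_const, Nat.card_Ico, nsmul_eq_mul, mul_one, Nat.cast_sub a1]
    push_cast
    linarith
  rw [dist_zero_right, norm_div, Complex.norm_natCast, div_lt_iff₀ (by nlinarith),
    ← sum_range_add_sum_Ico _ a1]
  rw [div_le_iff₀ (by positivity)] at h3
  have a7 := mul_lt_mul_of_pos_right hq (by positivity : (0 : ℝ) < j ^ 2)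
  have a8 := mul_le_mul_of_nonneg_left h3 (by positivity : (0 : ℝ) ≤ j)
  refine (norm_add_le _ _).trans_lt ?_
  nlinarith [le_abs_self C, abs_nonneg C, mul_le_mul_of_nonneg_left a3 hε.le]

theorem normal (hm : StrictMono m) (m2 : 2 ≤ m 0) (hg : ∀ k, k * 16 ^ k ≤ m k) :
    ∀ᵐ x : ℝ, 0 < gg m x → gg m x ≤ 3 / 4 → ∀ b : ℕ, 2 ≤ b → UD fun n => gg m x * (b : ℝ) ^ n := by
  have key : ∀ b h q : ℕ, ∀ᵐ x : ℝ, 2 ≤ b → 1 ≤ h → 0 < gg m x → gg m x ≤ 3 / 4 → ∀ᶠ j : ℕ in atTop,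
      ‖∑ n ∈ range (j ^ 2), ee (h * (gg m x * (b : ℝ) ^ n))‖ ≤
        1 / (q + 1) * j ^ 2 + 7 * h * KK b * 1 := by
    intro b h q
    rcases lt_or_ge b 2 with hb | hb
    · exact Eventually.of_forall fun x e => absurd e (by omega)
    rcases lt_or_ge h 1 with hh | hh
    · exact Eventually.of_forall fun x _ e => absurd e (by omega)
    have b1 : 1 < |(b : ℝ)| := by rw [Nat.abs_cast]; exact_mod_cast hb
    have h1 : ∀ j : ℕ, volume (gg m ⁻¹' {t | 0 < t ∧ t ≤ 3 / 4 ∧ 4 ^ b ≤ j ∧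
        1 / (q + 1) * j ^ 2 + 7 * h * KK b * 1 ≤ ‖SS b h 0 ((j ^ 2 : ℕ) * log |(b : ℝ)|) t‖}) ≤
        ENNReal.ofReal (2 * (1 + KK b ^ 2) * (q + 1) ^ 2 * ((j : ℝ) ^ (3 / 2 : ℝ))⁻¹) := by
      intro j
      rcases lt_or_ge j (4 ^ b) with hj | hj
      · simp [not_le.mpr hj]
      have j0 : 0 < j := lt_of_lt_of_le (by positivity) hj
      have j1 : (0 : ℝ) < j := by exact_mod_cast j0
      have a1 := Nat.pow_log_le_self 4 j0.ne'
      have a2 := Nat.lt_pow_succ_log_self (by norm_num : 1 < 4) j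
      have a3 : b ≤ Nat.log 4 j := Nat.le_log_of_pow_le (by norm_num) hj
      generalize Nat.log 4 j = k at a1 a2 a3
      have a4 : b ^ j ^ 2 ≤ 2 ^ m (k + 1) := by
        calc b ^ j ^ 2 ≤ (2 ^ (k + 1)) ^ (4 ^ (k + 1)) ^ 2 := by
              gcongr
              · exact Nat.one_le_two_pow
              · exact (by omega : b ≤ k + 1).trans Nat.lt_two_pow_self.le
          _ = 2 ^ ((k + 1) * 16 ^ (k + 1)) := by
              rw [← pow_mul 2, ← pow_mul 4, mul_comm (k + 1) 2, pow_mul 4]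
              norm_num
          _ ≤ _ := Nat.pow_le_pow_right two_pos (hg _)
      have a5 : 1 / (2 : ℝ) ^ m (k + 1) ≤ 1 * exp (-((j ^ 2 : ℕ) * log |(b : ℝ)|)) := by
        rw [one_mul, exp_neg, ← pow_eq b1, one_div, Nat.abs_cast]
        exact inv_anti₀ (by positivity) (by exact_mod_cast a4)
      have a6 : 1 / (2 : ℝ) ^ m (k + 1) ≤ 1 / 2 ^ 2 := by
        gcongr
        exacts [one_le_two, m2.trans (hm.monotone (Nat.zero_le _))]
      refine (cover hm _ (k + 1)).trans ((mul_le_mul_right (le_trans (measure_mono ?_)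
        (cheb b1 hh (j ^ 2) (c := 1 / (q + 1) * j ^ 2) (by positivity))) _).trans ?_)
      · rintro y ⟨η, e1, e2, e3, e4, -, e5⟩
        refine ⟨⟨by linarith, by linarith⟩, ?_⟩
        have := SS_lip b1 h 0 ((j ^ 2 : ℕ) * log |(b : ℝ)|) (t := y - η) (t' := y) (c := 1) (by
          rw [sub_sub_cancel_left, abs_neg, abs_of_nonneg e1]
          exact e2.trans a5)
        linarith
      · rw [← ENNReal.ofReal_ofNat, ← ENNReal.ofReal_pow (by norm_num),
          ← ENNReal.ofReal_mul (by positivity)]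
        refine ENNReal.ofReal_le_ofReal ?_
        have e1 : (2 : ℝ) ^ k ≤ (j : ℝ) ^ (1 / 2 : ℝ) := by
          rw [← sqrt_eq_rpow]
          refine le_sqrt_of_sq_le ?_
          rw [← pow_mul, mul_comm, pow_mul]
          norm_num
          exact_mod_cast a1
        have e2 : (j : ℝ) ^ 2 = (j : ℝ) ^ (1 / 2 : ℝ) * (j : ℝ) ^ (3 / 2 : ℝ) := by
          rw [← rpow_add j1]
          norm_num
        have e3 := rpow_pos_of_pos j1 (1 / 2)
        have e4 := rpow_pos_of_pos j1 (3 / 2)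
        calc _ ≤ (j : ℝ) ^ (1 / 2 : ℝ) * 2 * ((j ^ 2 : ℕ) * (1 + KK b ^ 2) / (1 / (q + 1) * j ^ 2) ^ 2) := by
              rw [pow_succ]
              gcongr
          _ = _ := by
              push_cast
              rw [e2]
              field_simp
    have h2 := ae_eventually_notMem (μ := volume) (ne_top_of_le_ne_top (by
      rw [← ENNReal.ofReal_tsum_of_nonneg (fun _ => by positivity)
        ((summable_nat_rpow_inv.mpr (by norm_num)).mul_left _)]
      exact ENNReal.ofReal_ne_top) (ENNReal.tsum_le_tsum h1))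
    filter_upwards [h2] with x hx _ _ x1 x2
    filter_upwards [hx, eventually_ge_atTop (4 ^ b)] with j j1 j2
    rw [← SS_eq b1]
    by_contra hc
    exact j1 ⟨x1, x2, j2, (not_le.mp hc).le⟩
  filter_upwards [ae_all_iff.mpr fun b => ae_all_iff.mpr fun h => ae_all_iff.mpr fun q => key b h q]
    with x hx x1 x2 b hb
  exact ud_of_ws fun h hh => sq_lim (fun n => (ee_norm _).le) fun q => hx b h q hb hh x1 x2

theorem digits {b : ℕ} (hb : 2 ≤ b) (k : ℕ) (w : Fin k → ℤ) (hw : ∀ j, 0 ≤ w j ∧ w j < b) :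
    ∃ W : ℤ, 0 ≤ W ∧ W + 1 ≤ b ^ k ∧ ∀ y : ℝ, (∀ j : Fin k, ⌊y * b ^ (j.val + 1)⌋ % b = w j) ↔
      ⌊Int.fract y * b ^ k⌋ = W := by
  have b0 : (b : ℝ) ≠ 0 := by positivity
  induction k with
  | zero => exact ⟨0, le_rfl, by simp, fun y => by simp⟩
  | succ k ih =>
    obtain ⟨W, w1, w2, w3⟩ := ih (fun j => w j.castSucc) fun j => hw _
    obtain ⟨a1, a2⟩ := hw (Fin.last k)
    refine ⟨b * W + w (Fin.last k), by positivity, by rw [pow_succ]; nlinarith, fun y => ?_⟩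
    have e1 : ⌊Int.fract y * b ^ k⌋ = ⌊Int.fract y * b ^ (k + 1)⌋ / b := by
      rw [← Int.floor_div_natCast, pow_succ, ← mul_assoc, mul_div_cancel_right₀ _ b0]
    have e2 : ⌊y * b ^ (k + 1)⌋ % b = ⌊Int.fract y * b ^ (k + 1)⌋ % b := by
      have : y * b ^ (k + 1) = Int.fract y * b ^ (k + 1) + (b * (⌊y⌋ * b ^ k) : ℤ) := by
        rw [Int.fract]
        push_cast
        ring
      rw [this, Int.floor_add_intCast, Int.add_mul_emod_self_left]
    rw [Fin.forall_fin_succ', Fin.val_last, e2]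
    simp only [Fin.val_castSucc]
    rw [w3, e1, Int.ediv_emod_unique (by exact_mod_cast (by omega : 0 < b))]
    exact ⟨fun h => by rw [← h.1, add_comm], fun h => ⟨by rw [h, add_comm], a1, a2⟩⟩

theorem blocks {x : ℝ} {b : ℕ} (hb : 2 ≤ b) (hu : UD fun n => x * (b : ℝ) ^ n) (k : ℕ) (w : Fin k → ℤ)
    (hw : ∀ j, 0 ≤ w j ∧ w j < b) : Tendsto (fun N : ℕ => ((((range N).filter (fun i : ℕ =>
      ∀ j : Fin k, ⌊x * (b : ℝ) ^ (i + j.val + 1)⌋ % (b : ℤ) = w j)).card : ℝ) / (N : ℝ)))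
      atTop (𝓝 (1 / (b : ℝ) ^ k)) := by
  obtain ⟨W, w1, w2, w3⟩ := digits hb k w hw
  have p0 : (0 : ℝ) < b ^ k := by positivity
  have w4 : (0 : ℝ) ≤ W := by exact_mod_cast w1
  have := hu (W / b ^ k) ((W + 1) / b ^ k) (by positivity) (by gcongr; linarith)
    (by rw [div_le_one p0]; exact_mod_cast w2)
  rw [← sub_div, add_sub_cancel_left] at this
  refine this.congr fun N => ?_
  congr 2
  refine congrArg card (filter_congr fun i _ => ?_)
  simp only [add_assoc, pow_add _ i, ← mul_assoc]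
  rw [w3, Int.floor_eq_iff, div_le_iff₀ p0, lt_div_iff₀ p0]

theorem seq {φ : ℝ → ℝ} (h : Tendsto (fun r : ℝ => r / φ r) (𝓝[>] 0) (𝓝 0)) : ∃ m : ℕ → ℕ,
    (∀ k, m k + 3 ≤ m (k + 1)) ∧ 2 ≤ m 0 ∧ (∀ k, k * 16 ^ k ≤ m k) ∧
      ∀ k r, 0 < r → r ≤ 1 / 2 ^ m k → r / φ r < 1 / 2 ^ (k + 3) := by
  have h1 : ∀ k a : ℕ, ∃ n, a ≤ n ∧ k * 16 ^ k ≤ n ∧
      ∀ r, 0 < r → r ≤ 1 / 2 ^ n → r / φ r < 1 / 2 ^ (k + 3) := by
    intro k a
    obtain ⟨δ, d0, d1⟩ := mem_nhdsGT_iff_exists_Ioc_subset.mp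
      ((tendsto_order.mp h).2 (1 / 2 ^ (k + 3)) (by positivity))
    obtain ⟨n, hn⟩ := exists_pow_lt_of_lt_one (Set.mem_Ioi.mp d0) (y := 1 / 2) (by norm_num)
    refine ⟨max (max a (k * 16 ^ k)) n, by omega, by omega, fun r r0 r1 => d1 ⟨r0, r1.trans ?_⟩⟩
    rw [one_div_pow] at hn
    refine le_trans ?_ hn.le
    gcongr
    exacts [one_le_two, le_max_right _ _]
  choose f f1 f2 f3 using h1
  refine ⟨fun k => Nat.rec (f 0 2) (fun k n => f (k + 1) (n + 3)) k, fun k => f1 _ _, f1 _ _,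
    fun k => ?_, fun k => ?_⟩ <;> cases k
  exacts [f2 _ _, f2 _ _, f3 _ _, f3 _ _]

theorem mass {φ : ℝ → ℝ} (p0 : ∀ r, 0 < r → 0 < φ r) (hm : StrictMono m) (m3 : ∀ k, 2 * k ≤ m k)
    (h : ∀ k r, 0 < r → r ≤ 1 / 2 ^ m k → r / φ r < 1 / 2 ^ (k + 3)) (s : Set ℝ) :
    volume (gg m ⁻¹' s) ≤ Measure.mkMetric (fun r : ℝ≥0∞ => ENNReal.ofReal (φ r.toReal)) s := by
  rw [← OuterMeasure.coe_mkMetric]
  refine OuterMeasure.le_mkMetric _ (OuterMeasure.map (gg m) volume.toOuterMeasure)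
    (ENNReal.ofReal (1 / 2 ^ m 0)) (by simp) (fun A hA => ?_) s
  change volume (gg m ⁻¹' A) ≤ _
  rcases A.eq_empty_or_nonempty with rfl | ⟨a, ha⟩
  · simp
  have h1 : Metric.ediam A ≠ ∞ := ne_top_of_le_ne_top ENNReal.ofReal_ne_top hA
  have h2 := ENNReal.toReal_le_of_le_ofReal (by positivity) hA
  have h3 : ∀ k, volume (gg m ⁻¹' A) ≤
      ENNReal.ofReal (2 ^ k * (2 * (Metric.ediam A).toReal + 1 / 2 ^ m k)) := fun k => by
    refine (cover hm A k).trans ((mul_le_mul_right (measure_mono (t := Set.Icc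
      (a - (Metric.ediam A).toReal) (a + (Metric.ediam A).toReal + 1 / 2 ^ m k)) ?_) _).trans ?_)
    · rintro y ⟨η, e1, e2, e3⟩
      have := abs_le.mp (Metric.dist_le_diam_of_mem' h1 e3 ha)
      rw [Metric.diam] at this
      constructor <;> linarith [this.1, this.2]
    · rw [Real.volume_Icc, ← ENNReal.ofReal_ofNat, ← ENNReal.ofReal_pow (by norm_num),
        ← ENNReal.ofReal_mul (by positivity)]
      exact ENNReal.ofReal_le_ofReal (le_of_eq (by ring))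
  have h4 := ENNReal.toReal_nonneg (a := Metric.ediam A)
  generalize (Metric.ediam A).toReal = r at *
  have h5 : ∀ k, 1 / (2 : ℝ) ^ m k ≤ 1 / 2 ^ k := fun k => by
    gcongr
    exacts [one_le_two, hm.le_apply]
  rcases h4.eq_or_lt with rfl | r0
  · refine le_trans (ge_of_tendsto' (x := atTop) (f := fun k : ℕ => ENNReal.ofReal ((1 / 2) ^ k))
      (a := 0) ?_ fun k => (h3 k).trans (ENNReal.ofReal_le_ofReal ?_)) zero_le
    · simpa using ENNReal.tendsto_ofReal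
        (tendsto_pow_atTop_nhds_zero_of_lt_one (r := (1 / 2 : ℝ)) (by norm_num) (by norm_num))
    · calc _ ≤ (2 : ℝ) ^ k * (2 * 0 + 1 / 2 ^ (2 * k)) := by gcongr; exacts [one_le_two, m3 k]
        _ = _ := by rw [two_mul k, pow_add, one_div_pow]; field_simp; simp
  · have h6 : ∃ k, 1 / (2 : ℝ) ^ m k ≤ r := by
      obtain ⟨n, hn⟩ := exists_pow_lt_of_lt_one r0 (y := 1 / 2) (by norm_num)
      exact ⟨n, (h5 n).trans (by rw [← one_div_pow]; exact hn.le)⟩
    have h7 := Nat.find_spec h6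
    have h8 : r / φ r < 1 / 2 ^ (Nat.find h6 - 1 + 3) := h _ r r0 (by
      rcases Nat.eq_zero_or_pos (Nat.find h6) with e | e
      · rwa [e]
      · exact (not_le.mp (Nat.find_min h6 (by omega))).le)
    refine (h3 (Nat.find h6)).trans (ENNReal.ofReal_le_ofReal ?_)
    generalize Nat.find h6 = k at *
    have h9 : (2 : ℝ) ^ (k + 2) ≤ 2 ^ (k - 1 + 3) := pow_le_pow_right₀ one_le_two (by omega)
    rw [div_lt_div_iff₀ (p0 r r0) (by positivity)] at h8
    rw [pow_add] at h9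
    nlinarith [pow_pos (two_pos (α := ℝ)) k]

theorem final {φ : ℝ → ℝ} (p0 : ∀ r, 0 < r → 0 < φ r)
    (h : Tendsto (fun r : ℝ => r / φ r) (𝓝[>] 0) (𝓝 0)) :
    ∃ K : Set ℝ, IsClosed K ∧ K ⊆ Set.Icc (0 : ℝ) 1 ∧
      (∀ c : ℤ → ℂ, (∀ x : ℝ, (∀ z : ℤ, x + (z : ℝ) ∉ K) → Tendsto (PP c x) atTop (𝓝 0)) →
        ∀ n : ℤ, c n = 0) ∧
      0 < Measure.mkMetric (fun r : ℝ≥0∞ => ENNReal.ofReal (φ r.toReal))
        (K ∩ {x : ℝ | ∀ b : ℕ, 2 ≤ b → UD fun n => x * (b : ℝ) ^ n}) := by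
  obtain ⟨m, m1, m2, m3, m4⟩ := seq h
  have hm : StrictMono m := strictMono_nat_of_lt_succ fun k => by have := m1 k; omega
  have m5 : ∀ k, 2 * k ≤ m k := fun k => by
    induction k with
    | zero => omega
    | succ k ih => have := m1 k; omega
  refine ⟨Set.Icc 0 1 ∩ ⋂ k, ⋂ z : ℤ, {y | 2 ^ m k * y - z ≤ 5 / 8} ∪ {y | 7 / 8 ≤ 2 ^ m k * y - z},
    isClosed_Icc.inter (isClosed_iInter fun k => isClosed_iInter fun z =>
      (isClosed_le (by fun_prop) (by fun_prop)).union (isClosed_le (by fun_prop) (by fun_prop))),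
    Set.inter_subset_left, fun c hc => uniq (n := fun k => 2 ^ m k) (fun k => by positivity)
      ((tendsto_pow_atTop_atTop_of_one_lt one_lt_two).comp hm.tendsto_atTop) fun k x z h1 h2 =>
        hc x fun q hq => ?_, lt_of_lt_of_le ?_ (mass p0 hm m5 m4 _)⟩
  · have := Set.mem_iInter.mp (Set.mem_iInter.mp hq.2 k) (z + 2 ^ m k * q)
    simp only [Set.mem_union, Set.mem_setOf_eq] at this
    push_cast at this h1 h2
    rcases this with e | e <;> linarith
  · refine lt_of_lt_of_le (b := volume (Set.Icc (1 / 2 : ℝ) (3 / 4))) (by norm_num)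
      (measure_mono_ae ?_)
    filter_upwards [normal hm m2 m3] with x hx ⟨x1, x2⟩
    obtain ⟨η, e1, e2, e3⟩ := split hm x 0
    have e4 : 1 / (2 : ℝ) ^ m 0 ≤ 1 / 2 ^ 2 := by gcongr; exact one_le_two
    rw [sum_range_zero] at e3
    exact ⟨⟨⟨by linarith, by linarith⟩, Set.mem_iInter.mpr fun k => Set.mem_iInter.mpr fun z =>
      avoid m1 x k z⟩, hx (by linarith) (by linarith)⟩

end Pool.Agent.H.MP_535d13_an
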